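import Pool.Agent.Helper15.T4.Stmts

/-! Module UNI of the project T4: cycles of the uniform pairing. -/

set_option autoImplicit false

open Finset MeasureTheory Filter Topology

namespace Pool.Agent.Helper15.T4

theorem uni_cov {H : Type} [Fintype H] [DecidableEq H] (F : Finset (Sym2 H)) (hF : IsMat F) :
    (cov F).card = 2 * F.card := by
  classical
  obtain ⟨h1, h2, h3⟩ := hF
  have e1 : cov F = F.biUnion (fun e => e.toFinset) := by
    ext h
    simp only [cov, Finset.mem_filter, Finset.mem_univ, true_and, Finset.mem_biUnion,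
      Sym2.mem_toFinset]
  rw [e1, Finset.card_biUnion]
  · rw [Finset.sum_congr rfl (fun e he => Sym2.card_toFinset_of_not_isDiag e (h1 e he)),
      Finset.sum_const, smul_eq_mul, mul_comm]
  · intro e he e' he' hne
    rw [Function.onFun, Finset.disjoint_left]
    intro h hh hh'
    rw [Sym2.mem_toFinset] at hh hh'
    obtain ⟨e0, _, hu⟩ := h3 h (h2 e he h hh)
    exact hne ((hu e ⟨he, hh⟩).trans (hu e' ⟨he', hh'⟩).symm)

/-- the value of the mass -/
noncomputable def uniR (f N : ℕ) : ℝ :=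
  (∏ i ∈ range (3 * N - f), (2 * (i : ℝ) + 1)) / ∏ i ∈ range (3 * N), (2 * (i : ℝ) + 1)

theorem uni_pm (h1 : ST_CARD) (N : ℕ) :
    ((PM (univ : Finset (HE (2 * N)))).card : ℝ) = ∏ i ∈ range (3 * N), (2 * (i : ℝ) + 1) := by
  rw [h1 (HE (2 * N)) univ (3 * N) (by
    rw [Finset.card_univ, Fintype.card_prod, Fintype.card_fin, Fintype.card_fin]
    ring)]
  push_cast
  rfl

theorem uni_pos (k : ℕ) : (0 : ℝ) < ∏ i ∈ range k, (2 * (i : ℝ) + 1) :=
  Finset.prod_pos (fun i _ => by positivity)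

theorem uni_mass (h1 : ST_CARD) (h2 : ST_EXTM) (N f : ℕ) (F : Finset (Sym2 (HE (2 * N))))
    (hF : IsMat F) (hf : F.card = f) :
    mass (fun _ => 1 / ((PM (univ : Finset (HE (2 * N)))).card : ℝ)) F = uniR f N ∧
      f ≤ 3 * N := by
  classical
  have hc := uni_cov F hF
  have hH : Fintype.card (HE (2 * N)) = 6 * N := by
    rw [Fintype.card_prod, Fintype.card_fin, Fintype.card_fin]
    ring
  have hle : (cov F).card ≤ 6 * N := by
    rw [← hH]
    exact Finset.card_le_univ _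
  have hf3 : f ≤ 3 * N := by omega
  refine ⟨?_, hf3⟩
  have h4 := h2 (HE (2 * N)) F (fun _ => 1) hF
  simp only [Finset.prod_const_one, Finset.sum_const, nsmul_eq_mul, mul_one, one_mul] at h4
  have h5 : (PM (cov F)ᶜ).card = ∏ i ∈ range (3 * N - f), (2 * i + 1) := by
    apply h1
    rw [Finset.card_compl, hH, hc, hf]
    omega
  rw [h5] at h4
  have h6 : ((PM (univ : Finset (HE (2 * N)))).filter (fun M => F ⊆ M)).card =
      ∏ i ∈ range (3 * N - f), (2 * i + 1) := by
    exact_mod_cast h4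
  unfold mass uniR
  rw [Finset.sum_const, nsmul_eq_mul, ← uni_pm h1 N, mul_one_div]
  congr 1
  have h7 : (((PM (univ : Finset (HE (2 * N)))).filter (fun M => F ⊆ M)).card : ℝ) =
      ∏ i ∈ range (3 * N - f), (2 * (i : ℝ) + 1) := by
    rw [h6]
    push_cast
    rfl
  rw [← h7]

theorem uni_eq (f N : ℕ) (hf : f ≤ 3 * N) :
    uniR f N = 1 / ∏ i ∈ range f, (6 * (N : ℝ) - 2 * f + 2 * i + 1) := by
  unfold uniR
  have e : 3 * N = (3 * N - f) + f := by omega
  have h1 : ∏ i ∈ range (3 * N), (2 * (i : ℝ) + 1) =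
      (∏ i ∈ range (3 * N - f), (2 * (i : ℝ) + 1)) *
        ∏ i ∈ range f, (6 * (N : ℝ) - 2 * f + 2 * i + 1) := by
    conv_lhs => rw [e]
    rw [Finset.prod_range_add]
    congr 1
    apply Finset.prod_congr rfl
    intro i _
    rw [Nat.cast_add, Nat.cast_sub hf]
    push_cast
    ring
  rw [h1]
  have h2 := uni_pos (3 * N - f)
  rw [div_mul_eq_div_div, div_self h2.ne']

theorem uni_lim (f : ℕ) :
    Tendsto (fun N : ℕ => uniR f N * (2 * (N : ℝ)) ^ f) atTop (𝓝 ((1 / 3) ^ f)) := by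
  have h1 : ∀ i : ℕ, Tendsto (fun N : ℕ => (2 * (N : ℝ)) /
      (6 * (N : ℝ) - 2 * f + 2 * i + 1)) atTop (𝓝 (1 / 3)) := by
    intro i
    have h2 : Tendsto (fun N : ℕ => (N : ℝ)) atTop atTop := tendsto_natCast_atTop_atTop
    have h3 : Tendsto (fun N : ℕ => (2 * (f : ℝ) - 2 * i - 1) / (N : ℝ)) atTop (𝓝 0) :=
      h2.const_div_atTop _
    have h4 : Tendsto (fun N : ℕ => (2 : ℝ) / (6 - (2 * (f : ℝ) - 2 * i - 1) / (N : ℝ))) atTop
        (𝓝 (2 / (6 - 0))) :=
      tendsto_const_nhds.div (tendsto_const_nhds.sub h3) (by norm_num)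
    have h5 : (2 : ℝ) / (6 - 0) = 1 / 3 := by norm_num
    rw [h5] at h4
    refine h4.congr' ?_
    filter_upwards [eventually_gt_atTop 0] with N hN
    have hN' : (N : ℝ) ≠ 0 := by exact_mod_cast hN.ne'
    have e : (6 : ℝ) - (2 * (f : ℝ) - 2 * i - 1) / N =
        (6 * (N : ℝ) - 2 * f + 2 * i + 1) / N := by
      field_simp
      ring
    rw [e, div_div_eq_mul_div]
  have h6 : Tendsto (fun N : ℕ => ∏ i ∈ range f, (2 * (N : ℝ)) /
      (6 * (N : ℝ) - 2 * f + 2 * i + 1)) atTop (𝓝 (∏ _i ∈ range f, (1 / 3 : ℝ))) :=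
    tendsto_finsetProd _ (fun i _ => h1 i)
  rw [Finset.prod_const, Finset.card_range] at h6
  refine h6.congr' ?_
  filter_upwards [eventually_ge_atTop f] with N hN
  rw [uni_eq f N (by omega), Finset.prod_div_distrib, Finset.prod_const, Finset.card_range]
  ring

theorem uni_bd (f N : ℕ) (hN : f < N) : uniR f N ≤ 1 / (2 * (N : ℝ)) ^ f := by
  rw [uni_eq f N (by omega)]
  have hN0 : (f : ℝ) + 1 ≤ N := by exact_mod_cast hN
  have hf0 : (0 : ℝ) ≤ f := Nat.cast_nonneg f
  have hNp : (0 : ℝ) < 2 * (N : ℝ) := by linarith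
  apply one_div_le_one_div_of_le (pow_pos hNp f)
  have h1 : (2 * (N : ℝ)) ^ f = ∏ _i ∈ range f, (2 * (N : ℝ)) := by
    rw [Finset.prod_const, Finset.card_range]
  rw [h1]
  apply Finset.prod_le_prod
  · intro i _
    positivity
  · intro i _
    have hi : (0 : ℝ) ≤ i := Nat.cast_nonneg i
    linarith

theorem st_UNI (h1 : ST_CARD) (h2 : ST_EXTM) (h3 : ST_STRU) : ST_UNI := by
  unfold ST_UNI
  refine ⟨?_, ?_, ?_, ?_⟩
  · intro N M
    positivity
  · filter_upwards with N
    rw [Finset.sum_const, nsmul_eq_mul, mul_one_div, div_self]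
    rw [uni_pm h1 N]
    exact (uni_pos _).ne'
  · intro I _ _ κ
    refine ⟨uniR (∑ i, (κ i + 1)), ?_, ?_⟩
    · have h4 := uni_lim (∑ i, (κ i + 1))
      have h5 : ∏ i, (1 : ℝ) / 3 ^ (κ i + 1) = (1 / 3) ^ (∑ i, (κ i + 1)) := by
        rw [← Finset.prod_pow_eq_pow_sum]
        apply Finset.prod_congr rfl
        intro i _
        rw [one_div, one_div, inv_pow]
      rw [h5]
      exact h4
    · filter_upwards with N
      intro c hc
      obtain ⟨h6, h7, _⟩ := h3 (2 * N) I κ c hc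
      exact (uni_mass h1 h2 N _ (EU c) h6 h7).1
  · intro f
    refine ⟨1, ?_⟩
    filter_upwards [eventually_gt_atTop f] with N hN
    intro F hF hf
    rw [(uni_mass h1 h2 N f F hF hf).1]
    exact uni_bd f N hN

end Pool.Agent.Helper15.T4
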